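import Mathlib

namespace Pool.Agent.H.MP_c360fa_mp

open MvPolynomial

abbrev A := MvPolynomial ℕ ℝ

noncomputable def S (k : ℕ) : Derivation ℝ A A := mkDerivation ℝ fun i => X (i + k)

@[simp] lemma S_X (k i : ℕ) : S k (X i) = X (i + k) := by simp [S]

lemma comm {D E F : Derivation ℝ A A} (h : ∀ i, D (E (X i)) = E (D (X i)) + F (X i)) (p : A) :
    D (E p) = E (D p) + F p := by
  have : ⁅D, E⁆ = F := derivation_ext fun i => by rw [Derivation.commutator_apply, h]; ring
  rw [← this, Derivation.commutator_apply]; ring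

lemma pd_S (k j : ℕ) (p : A) : pderiv (j + k) (S k p) = S k (pderiv (j + k) p) + pderiv j p := by
  refine comm (fun i => ?_) p
  simp only [S_X, pderiv_X, Pi.single_apply]
  split_ifs <;> first | omega | simp

lemma pd_S' (k j : ℕ) (h : j < k) (p : A) : pderiv j (S k p) = S k (pderiv j p) := by
  refine (comm (F := 0) (fun i => ?_) p).trans (by simp)
  simp only [S_X, pderiv_X, Pi.single_apply]
  split_ifs <;> first | omega | simp

lemma desc (p : A) (h : ∀ n, (∀ j, n < j → pderiv j p = 0) → pderiv n p = 0) (j : ℕ) :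
    pderiv j p = 0 := by
  obtain ⟨N, hN⟩ := p.vars.bddAbove
  have : ∀ k j, N < j + k → pderiv j p = 0 := by
    intro k
    induction k with
    | zero => exact fun j hj => pderiv_eq_zero_of_notMem_vars fun e => by have := hN e; omega
    | succ k ih => exact fun j hj => h j fun i hi => ih i (by omega)
  exact this (N + 1) j (by omega)

lemma zero_of {p : A} {d : ℕ} (hp : p.IsHomogeneous (d + 1)) (h : ∀ j, pderiv j p = 0) : p = 0 := by
  ext m
  by_cases e : m = 0
  · exact hp.coeff_eq_zero (by simp [e])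
  obtain ⟨i, hi⟩ := Finsupp.ne_iff.1 e
  have := congrArg (coeff (m - Finsupp.single i 1)) (h i)
  rw [coeff_pderiv, tsub_add_cancel_of_le (by simpa [Nat.one_le_iff_ne_zero] using hi)] at this
  exact (mul_eq_zero.1 this).resolve_right (by positivity)

lemma kerL {p : A} {d : ℕ} (hp : p.IsHomogeneous (d + 2)) (h : S 3 p = S 1 (S 1 (S 1 p))) :
    p = 0 := by
  refine zero_of hp (desc p fun n hn => zero_of (d := d) hp.pderiv (desc _ fun j hj => ?_))
  have a : S 1 (pderiv n p) = 0 := by
    have := congrArg (pderiv (n + 2)) h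
    rcases n with _ | n
    · rw [pd_S' _ _ (by omega)] at this
      simp only [pd_S 1, pd_S' 1 0 one_pos, hn _ (show 0 < 0 + 1 + 1 by omega),
        hn _ (show 0 < 0 + 1 by omega), map_zero, map_add, zero_add] at this
      exact (mul_eq_zero.1 (show 3 * S 1 (pderiv _ p) = 0 by linear_combination -this)).resolve_left (by norm_num)
    · rw [show n + 1 + 2 = n + 3 from rfl, pd_S] at this
      simp only [show n + 3 = n + 1 + 1 + 1 from rfl, pd_S 1,
        hn _ (show n + 1 < n + 1 + 1 + 1 by omega),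
        hn _ (show n + 1 < n + 1 + 1 by omega), map_zero, map_add, zero_add] at this
      exact (mul_eq_zero.1 (show 3 * S 1 (pderiv _ p) = 0 by linear_combination -this)).resolve_left (by norm_num)
  have := congrArg (pderiv (j + 1)) a
  rwa [pd_S, hj _ (by omega), map_zero, map_zero, zero_add] at this

lemma der_sum (D : Derivation ℝ A A) (p : A) (s : Finset ℕ) (h : p.vars ⊆ s) :
    D p = ∑ i ∈ s, pderiv i p * D (X i) := by
  have : ∀ s : Finset ℕ, ∀ q, (∑ i ∈ s, D (X i) • pderiv i : Derivation ℝ A A) q =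
      ∑ i ∈ s, pderiv i q * D (X i) := by
    intro s q
    induction s using Finset.induction_on with
    | empty => simp
    | insert a s ha ih => simp [Finset.sum_insert ha, ih, mul_comm]
  rw [← this]
  refine derivation_eq_of_forall_mem_vars fun i hi => ?_
  simp [this, Pi.single_apply, h hi]

lemma hom_der (D : Derivation ℝ A A) (e : ℕ) (hD : ∀ i, (D (X i)).IsHomogeneous e) {p : A} {d : ℕ}
    (hp : p.IsHomogeneous (d + 1)) : (D p).IsHomogeneous (d + e) := by
  exact der_sum D p _ le_rfl ▸ IsHomogeneous.sum _ _ _ fun i _ => hp.pderiv.mul (hD i)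

lemma hom_der' (D : Derivation ℝ A A) (e : ℕ) (hD : ∀ i, (D (X i)).IsHomogeneous (e + 1)) {p : A}
    {d : ℕ} (hp : p.IsHomogeneous d) : (D p).IsHomogeneous (d + e) := by
  rcases d with _ | d
  · rw [hp.totalDegree_le |> Nat.le_zero.1 |> totalDegree_eq_zero_iff_eq_C.1, derivation_C]
    exact isHomogeneous_zero _ _ _
  · exact (show d + (e + 1) = d + 1 + e by ring) ▸ hom_der D _ hD hp

lemma hom_S (k : ℕ) {p : A} {d : ℕ} (hp : p.IsHomogeneous d) : (S k p).IsHomogeneous d :=
  hom_der' (S k) 0 (fun i => by simpa using isHomogeneous_X _ _) hp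

lemma comp (Φ : A →ₗ[ℝ] A) (s : ℕ) (h : ∀ d p, p.IsHomogeneous d → (Φ p).IsHomogeneous (d + s))
    (p : A) (e : ℕ) : homogeneousComponent e (Φ p) =
      if s ≤ e then Φ (homogeneousComponent (e - s) p) else 0 := by
  induction p using MvPolynomial.induction_on' with
  | monomial m c =>
    have := isHomogeneous_monomial (d := m) c rfl
    rw [homogeneousComponent_of_mem (h _ _ this), homogeneousComponent_of_mem this]
    split_ifs <;> first | omega | simp
  | add p q hp hq => rw [map_add, map_add, hp, hq]; split_ifs <;> simp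

noncomputable def T : Derivation ℝ A A := mkDerivation ℝ fun i => (S 1)^[i] (X 1 ^ 4)

noncomputable def L : A →ₗ[ℝ] A := (S 3 : A →ₗ[ℝ] A) - (S 1 : A →ₗ[ℝ] A) ^ 3

noncomputable def M : A →ₗ[ℝ] A :=
  (T : A →ₗ[ℝ] A) - (S 1 : A →ₗ[ℝ] A) ∘ₗ LinearMap.mulRight ℝ (4 * X 1 ^ 3)

lemma L_app (p : A) : L p = S 3 p - S 1 (S 1 (S 1 p)) := rfl

lemma M_app (p : A) : M p = T p - S 1 (p * (4 * X 1 ^ 3)) := rfl

lemma T_X (i : ℕ) : T (X i) = (S 1)^[i] (X 1 ^ 4) := by simp [T]

lemma hom_L (d : ℕ) (p : A) (hp : p.IsHomogeneous d) : (L p).IsHomogeneous (d + 0) :=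
  (hom_S _ hp).sub (hom_S _ (hom_S _ (hom_S _ hp)))

lemma hom_M (d : ℕ) (p : A) (hp : p.IsHomogeneous d) : (M p).IsHomogeneous (d + 3) := by
  refine (hom_der' T 3 (fun i => ?_) hp).sub (hom_S _ (hp.mul ?_))
  · rw [T_X]
    induction i with
    | zero => exact (isHomogeneous_X _ _).pow 4
    | succ i ih => rw [Function.iterate_succ_apply']; exact hom_S _ ih
  · exact (isHomogeneous_C _ (4 : ℝ)).mul ((isHomogeneous_X _ _).pow 3)

lemma step1 {p : A} (h : L p + M p = 0) (h0 : homogeneousComponent 0 p = 0)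
    (h1 : homogeneousComponent 1 p = 0) : p = 0 := by
  have : ∀ d, homogeneousComponent d p = 0 := by
    intro d
    induction d using Nat.strong_induction_on with
    | _ d ih =>
      rcases d with _ | _ | d
      · exact h0
      · exact h1
      have e := congrArg (homogeneousComponent (d + 1 + 1)) h
      rw [map_add, comp L 0 hom_L, comp M 3 hom_M, ih (d + 1 + 1 - 3) (by omega)] at e
      refine kerL (d := d) (homogeneousComponent_isHomogeneous _ _) (sub_eq_zero.1 ?_)
      simpa [L_app] using e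
  rw [← sum_homogeneousComponent p]
  simp [this]

noncomputable def E (a : ℝ) : Derivation ℝ A A := mkDerivation ℝ fun i => C (a ^ i)

@[simp] lemma E_X (a : ℝ) (i : ℕ) : E a (X i) = C (a ^ i) := by simp [E]

lemma E_S (a : ℝ) (k : ℕ) (p : A) : E a (S k p) = S k (E a p) + a ^ k • E a p :=
  comm (F := a ^ k • E a) (fun i => by simp [pow_add, smul_eq_C_mul, mul_comm]) p

lemma cc_S (k : ℕ) (p : A) : constantCoeff (S k p) = 0 := by
  rw [der_sum _ p _ le_rfl]
  simp

noncomputable def lam (a b c d : ℝ) : A →ₗ[ℝ] ℝ :=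
  lcoeff ℝ 0 ∘ₗ (E a : A →ₗ[ℝ] A) ∘ₗ (E b : A →ₗ[ℝ] A) ∘ₗ (E c : A →ₗ[ℝ] A) ∘ₗ (E d : A →ₗ[ℝ] A)

lemma lam_app (a b c d : ℝ) (p : A) : lam a b c d p = constantCoeff (E a (E b (E c (E d p)))) := rfl

lemma lam_S (a b c d : ℝ) (k : ℕ) (p : A) :
    lam a b c d (S k p) = (a ^ k + b ^ k + c ^ k + d ^ k) * lam a b c d p := by
  simp only [lam_app, E_S, map_add, Derivation.map_smul, cc_S, constantCoeff_smul, smul_eq_mul]
  ring

lemma lam_hom (a b c d : ℝ) {p : A} {n : ℕ} (hp : p.IsHomogeneous (n + 5)) : lam a b c d p = 0 := by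
  have k : ∀ a n, ∀ p : A, p.IsHomogeneous (n + 1) → (E a p).IsHomogeneous n := fun a n p hp =>
    hom_der (E a) 0 (fun i => E_X a i ▸ isHomogeneous_C _ _) hp
  exact (k a _ _ (k b _ _ (k c _ _ (k d _ _ hp)))).coeff_eq_zero (d := 0) (by simp)

lemma der_num (D : Derivation ℝ A A) (n : ℕ) [n.AtLeastTwo] : D ofNat(n) = 0 := D.map_natCast n

lemma lam_X (a b c d : ℝ) (n : ℕ) : lam a b c d (M (X n)) = 24 * (a * b * c * d * (a + b + c + d) ^ n
    - (a + b + c + d) * (a ^ n * b * c * d + a * b ^ n * c * d + a * b * c ^ n * d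
      + a * b * c * d ^ n)) := by
  have h1 : lam a b c d ((S 1)^[n] (X 1 ^ 4)) = (a + b + c + d) ^ n * (24 * (a * b * c * d)) := by
    induction n with
    | zero => simp [lam_app, map_ofNat]; ring
    | succ n ih => rw [Function.iterate_succ_apply', lam_S, ih]; ring
  rw [M_app, map_sub, T_X, h1, lam_S]
  simp [lam_app, map_ofNat]
  ring

lemma deg_one {m : ℕ →₀ ℕ} (h : m.degree = 1) : ∃ i, m = Finsupp.single i 1 := by
  have : Multiset.card (Finsupp.toMultiset m) = 1 := by rw [Finsupp.card_toMultiset]; exact h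
  obtain ⟨i, hi⟩ := Multiset.card_eq_one.1 this
  exact ⟨i, by rw [← Finsupp.toMultiset_toFinsupp m, hi, Multiset.toFinsupp_singleton]⟩

lemma lam_M (p : A) : ∃ N₀, ∀ N, N₀ ≤ N → ∀ a b c d, lam a b c d (M p) =
    ∑ n ∈ Finset.range N, coeff (Finsupp.single n 1) p * lam a b c d (M (X n)) := by
  induction p using MvPolynomial.induction_on' with
  | add p q hp hq =>
    obtain ⟨N₁, h₁⟩ := hp
    obtain ⟨N₂, h₂⟩ := hq
    refine ⟨N₁ + N₂, fun N hN a b c d => ?_⟩
    simp [h₁ N (by omega), h₂ N (by omega), add_mul, Finset.sum_add_distrib]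
  | monomial m r =>
    have hm := isHomogeneous_monomial (d := m) r rfl
    have z : m.degree ≠ 1 → ∀ N a b c d, ∑ n ∈ Finset.range N, coeff (Finsupp.single n 1) (monomial m r) *
        lam a b c d (M (X n)) = 0 := fun h N a b c d => Finset.sum_eq_zero fun n _ => by
      rw [hm.coeff_eq_zero (by simpa using h.symm), zero_mul]
    obtain h | h | h : m.degree = 0 ∨ m.degree = 1 ∨ ∃ k, m.degree = k + 2 := by
      rcases m.degree with _ | _ | k <;> simp
    · refine ⟨0, fun N _ a b c d => ?_⟩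
      rw [z (by omega), (Finsupp.degree_eq_zero_iff m).1 h, M_app, map_sub, lam_S]
      simp [lam_app, map_ofNat, der_num]
    · obtain ⟨i, rfl⟩ : ∃ i, m = Finsupp.single i 1 := by
        exact deg_one h
      refine ⟨i + 1, fun N hN a b c d => ?_⟩
      rw [Finset.sum_eq_single i (fun n _ hn => by simp [Finsupp.single_eq_single_iff, hn.symm])
        (fun hi => absurd (Finset.mem_range.2 hN) hi)]
      rw [coeff_monomial, if_pos rfl, ← smul_eq_mul, ← map_smul, ← map_smul, X, smul_monomial,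
        smul_eq_mul, mul_one]
    · obtain ⟨k, h⟩ := h
      refine ⟨0, fun N _ a b c d => ?_⟩
      rw [z (by omega)]
      exact lam_hom _ _ _ _ (n := k) (hom_M _ _ (h ▸ hm))

lemma ne_pow (k : ℕ) : (8 : ℝ) ^ (k + 5) < 9 ^ (k + 5) + (-7) ^ (k + 5) + 1 + 5 ^ (k + 5) := by
  have a : (8 : ℝ) ^ k ≤ 9 ^ k := pow_le_pow_left₀ (by norm_num) (by norm_num) k
  have b : (7 : ℝ) ^ k ≤ 9 ^ k := pow_le_pow_left₀ (by norm_num) (by norm_num) k
  have c : -(7 : ℝ) ^ (k + 5) ≤ (-7) ^ (k + 5) := by
    have := neg_abs_le ((-7 : ℝ) ^ (k + 5))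
    rwa [abs_pow, abs_neg, abs_of_pos (by norm_num)] at this
  have d : (0 : ℝ) < 5 ^ (k + 5) := by positivity
  have e : (0 : ℝ) < 9 ^ k := by positivity
  rw [pow_add] at c
  rw [pow_add, pow_add]
  nlinarith

lemma step2 {p : A} (h : L p + M p = 0) (k : ℕ) : coeff (Finsupp.single (k + 6) 1) p = 0 := by
  obtain ⟨N, hN⟩ := lam_M p
  let w : ℕ → ℝ := fun n => lam 9 (-7) 1 5 (M (X n))
  have hw : ∀ (t : ℝ) n, lam (9 * t) (-7 * t) t (5 * t) (M (X n)) = w n * t ^ (n + 4) := by
    intro t n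
    simp only [w, lam_X, show 9 * t + -7 * t + t + 5 * t = 8 * t by ring, mul_pow]
    norm_num
    ring
  have P : (∑ n ∈ Finset.range (N + k + 7), Polynomial.monomial (n + 4)
      (coeff (Finsupp.single n 1) p * w n)) = 0 := by
    refine Polynomial.funext fun t => ?_
    have e := congrArg (lam (9 * t) (-7 * t) t (5 * t)) h
    rw [map_add, hN (N + k + 7) (by omega), L_app, map_sub, lam_S, lam_S, lam_S, lam_S, map_zero] at e
    simp only [hw] at e
    simp only [Polynomial.eval_finset_sum, Polynomial.eval_monomial, Polynomial.eval_zero, mul_assoc]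
    linear_combination e
  have Q := congrArg (Polynomial.coeff · (k + 6 + 4)) P
  simp only [Polynomial.finset_sum_coeff, Polynomial.coeff_monomial, Nat.add_right_cancel_iff,
    Finset.sum_ite_eq', Finset.mem_range, Polynomial.coeff_zero, if_pos (show k + 6 < N + k + 7 by omega)] at Q
  refine (mul_eq_zero.1 Q).resolve_right ?_
  have := ne_pow k
  simp only [w, lam_X, show k + 6 = k + 5 + 1 from rfl, pow_succ _ (k + 5)]
  norm_num
  linarith

lemma fg : (LinearMap.ker (L + M)).FG := by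
  let φ : LinearMap.ker (L + M) →ₗ[ℝ] ℝ × (Fin 6 → ℝ) :=
    ((lcoeff ℝ 0).prod (LinearMap.pi fun n : Fin 6 => lcoeff ℝ (Finsupp.single (n : ℕ) 1))).domRestrict _
  have : Function.Injective φ := by
    refine (injective_iff_map_eq_zero φ).2 fun p hp => Subtype.ext (step1 p.2 ?_ ?_)
    · rw [homogeneousComponent_zero, show coeff 0 p.1 = 0 from congrArg Prod.fst hp, map_zero]
    · ext m
      rw [coeff_homogeneousComponent]
      split_ifs with h
      · obtain ⟨i, rfl⟩ := deg_one h
        rcases lt_or_ge i 6 with hi | hi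
        · exact congrFun (congrArg Prod.snd hp) ⟨i, hi⟩
        · obtain ⟨k, rfl⟩ := Nat.exists_eq_add_of_le' hi
          exact step2 p.2 k
      · rfl
  exact Module.Finite.iff_fg.1 (Module.Finite.of_injective φ this)

end Pool.Agent.H.MP_c360fa_mp
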